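import Pool.Agent.Q43.RP.Stm

/-!
# Second moment for Walsh coefficients of random half systems (job SH1 of project RP, helper43)
-/

set_option autoImplicit false

namespace Pool.Agent.Q135.RP

open Finset

theorem cb_upper (n : ℕ) : (3 * n + 1) * Nat.centralBinom n ^ 2 ≤ 16 ^ n := by
  induction n with
  | zero => simp
  | succ n ih =>
    have h := Nat.succ_mul_centralBinom_succ n
    have h2 : (n + 1) ^ 2 * ((3 * (n + 1) + 1) * Nat.centralBinom (n + 1) ^ 2) ≤
        (n + 1) ^ 2 * 16 ^ (n + 1) := by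
      have e1 : (n + 1) ^ 2 * ((3 * (n + 1) + 1) * Nat.centralBinom (n + 1) ^ 2) =
          (3 * n + 4) * ((n + 1) * Nat.centralBinom (n + 1)) ^ 2 := by ring
      rw [e1, h]
      have e2 : (3 * n + 4) * (2 * (2 * n + 1) * Nat.centralBinom n) ^ 2 =
          4 * ((3 * n + 4) * (2 * n + 1) ^ 2) * Nat.centralBinom n ^ 2 := by ring
      rw [e2]
      have e3 : (3 * n + 4) * (2 * n + 1) ^ 2 ≤ 4 * ((3 * n + 1) * (n + 1) ^ 2) := by
        have : 4 * ((3 * n + 1) * (n + 1) ^ 2) = (3 * n + 4) * (2 * n + 1) ^ 2 + n := by ring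
        omega
      calc 4 * ((3 * n + 4) * (2 * n + 1) ^ 2) * Nat.centralBinom n ^ 2
          ≤ 4 * (4 * ((3 * n + 1) * (n + 1) ^ 2)) * Nat.centralBinom n ^ 2 := by gcongr
        _ = 16 * (n + 1) ^ 2 * ((3 * n + 1) * Nat.centralBinom n ^ 2) := by ring
        _ ≤ 16 * (n + 1) ^ 2 * 16 ^ n := by gcongr
        _ = (n + 1) ^ 2 * 16 ^ (n + 1) := by ring
    exact Nat.le_of_mul_le_mul_left h2 (by positivity)

theorem cb_lower (n : ℕ) (hn : 1 ≤ n) : 16 ^ n ≤ 4 * n * Nat.centralBinom n ^ 2 := by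
  induction n, hn using Nat.le_induction with
  | base => decide
  | succ n hn ih =>
    have h := Nat.succ_mul_centralBinom_succ n
    have h2 : (n + 1) ^ 2 * 16 ^ (n + 1) ≤
        (n + 1) ^ 2 * (4 * (n + 1) * Nat.centralBinom (n + 1) ^ 2) := by
      have e1 : (n + 1) ^ 2 * (4 * (n + 1) * Nat.centralBinom (n + 1) ^ 2) =
          4 * (n + 1) * ((n + 1) * Nat.centralBinom (n + 1)) ^ 2 := by ring
      rw [e1, h]
      have e3 : 4 * n * (n + 1) ≤ (2 * n + 1) ^ 2 := by
        have : (2 * n + 1) ^ 2 = 4 * n * (n + 1) + 1 := by ring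
        omega
      calc (n + 1) ^ 2 * 16 ^ (n + 1) = 16 * (n + 1) ^ 2 * 16 ^ n := by ring
        _ ≤ 16 * (n + 1) ^ 2 * (4 * n * Nat.centralBinom n ^ 2) := by gcongr
        _ = 16 * (n + 1) * (4 * n * (n + 1)) * Nat.centralBinom n ^ 2 := by ring
        _ ≤ 16 * (n + 1) * ((2 * n + 1) ^ 2) * Nat.centralBinom n ^ 2 := by gcongr
        _ = 4 * (n + 1) * (2 * (2 * n + 1) * Nat.centralBinom n) ^ 2 := by ring
    exact Nat.le_of_mul_le_mul_left h2 (by positivity)

section Walsh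

variable {K : Type} [CommGroup K] [Fintype K] [DecidableEq K]

/-- the sign -/
def eps (A : Finset K) (x : K) : ℤ := if x ∈ A then 1 else -1

/-- the Walsh coefficient -/
def W (ψ : K →* ℤˣ) (A : Finset K) : ℤ := ∑ x, ((ψ x : ℤˣ) : ℤ) * eps A x

/-- the set where the character is -1 -/
def neg (ψ : K →* ℤˣ) : Finset K := univ.filter (fun x => ψ x = -1)

theorem eps_symmDiff (ψ : K →* ℤˣ) (A : Finset K) (x : K) :
    eps (symmDiff A (neg ψ)) x = ((ψ x : ℤˣ) : ℤ) * eps A x := by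
  unfold eps neg
  rcases Int.units_eq_one_or (ψ x) with h | h
  · have h1 : ¬ ((1 : ℤˣ) = -1) := by decide
    by_cases hx : x ∈ A <;> simp [Finset.mem_symmDiff, h, hx, h1]
  · by_cases hx : x ∈ A <;> simp [Finset.mem_symmDiff, h, hx]

omit [CommGroup K] [Fintype K] in
theorem sum_eps (S A : Finset K) : ∑ x ∈ S, eps A x = 2 * ((S ∩ A).card : ℤ) - S.card := by
  have h : ∀ x, eps A x = 2 * (if x ∈ A then 1 else 0) - 1 := by
    intro x
    unfold eps
    split_ifs <;> norm_num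
  rw [Finset.sum_congr rfl fun x _ => h x, Finset.sum_sub_distrib, ← Finset.mul_sum,
    Finset.sum_ite_mem]
  simp

theorem W_eq (ψ : K →* ℤˣ) (A : Finset K) :
    W ψ A = 2 * ((symmDiff A (neg ψ)).card : ℤ) - Fintype.card K := by
  have h := sum_eps (univ : Finset K) (symmDiff A (neg ψ))
  rw [Finset.univ_inter, Finset.card_univ] at h
  rw [← h]
  unfold W
  exact Finset.sum_congr rfl fun x _ => (eps_symmDiff ψ A x).symm

theorem card_zero (ψ : K →* ℤˣ) {n : ℕ} (hK : Fintype.card K = 2 * n) :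
    ((univ : Finset (Finset K)).filter (fun A => W ψ A = 0)).card = Nat.centralBinom n := by
  have h1 : (Finset.powersetCard n (univ : Finset K)).card = Nat.centralBinom n := by
    rw [Finset.card_powersetCard, Finset.card_univ, hK, Nat.centralBinom_eq_two_mul_choose]
  rw [← h1]
  refine Finset.card_nbij' (fun A => symmDiff A (neg ψ)) (fun A => symmDiff A (neg ψ))
    ?_ ?_ ?_ ?_
  · intro A hA
    have hA' := (Finset.mem_filter.mp hA).2
    rw [W_eq, hK] at hA'
    rw [Finset.mem_coe, Finset.mem_powersetCard]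
    refine ⟨Finset.subset_univ _, ?_⟩
    show (symmDiff A (neg ψ)).card = n
    push_cast at hA'
    omega
  · intro U hU
    have hU' := (Finset.mem_powersetCard.mp hU).2
    rw [Finset.mem_coe, Finset.mem_filter]
    refine ⟨Finset.mem_univ _, ?_⟩
    rw [W_eq, hK, symmDiff_symmDiff_cancel_right, hU']
    push_cast
    ring
  · intro A _
    exact symmDiff_symmDiff_cancel_right _ _
  · intro A _
    exact symmDiff_symmDiff_cancel_right _ _

theorem mul_self_units (u : ℤˣ) : u * u = 1 := by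
  rcases Int.units_eq_one_or u with h | h <;> rw [h] <;> decide

theorem card_zero_two {ψ ψ' : K →* ℤˣ} (hne : ψ ≠ ψ') {n : ℕ} (hK : Fintype.card K = 2 * n) :
    (3 * n + 2) * ((univ : Finset (Finset K)).filter (fun A => W ψ A = 0 ∧ W ψ' A = 0)).card ≤
      2 * 4 ^ n := by
  obtain ⟨φ, hφ⟩ : ∃ φ : K →* ℤˣ, φ = ψ * ψ' := ⟨_, rfl⟩
  have hφx : ∀ x, φ x = ψ x * ψ' x := fun x => by rw [hφ]; rfl
  have hφ1 : φ ≠ 1 := by
    intro h
    apply hne
    ext x
    have h1 : ψ x * ψ' x = 1 := by rw [← hφx, h]; rfl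
    have h2 := mul_self_units (ψ' x)
    have h3 : ψ x = ψ' x := by
      have : ψ x * ψ' x = ψ' x * ψ' x := by rw [h1, h2]
      exact mul_right_cancel this
    rw [h3]
  -- the two halves
  obtain ⟨P, hP⟩ : ∃ P : Finset K, P = univ.filter (fun x => φ x = 1) := ⟨_, rfl⟩
  obtain ⟨Q, hQ⟩ : ∃ Q : Finset K, Q = univ.filter (fun x => ¬ φ x = 1) := ⟨_, rfl⟩
  have hsplit : ∀ f : K → ℤ, ∑ x, f x = ∑ x ∈ P, f x + ∑ x ∈ Q, f x := fun f => by
    rw [hP, hQ, Finset.sum_filter_add_sum_filter_not]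
  have hφP : ∀ x ∈ P, ((φ x : ℤˣ) : ℤ) = 1 := fun x hx => by
    rw [hP] at hx
    rw [(Finset.mem_filter.mp hx).2]
    rfl
  have hφQ : ∀ x ∈ Q, ((φ x : ℤˣ) : ℤ) = -1 := fun x hx => by
    rw [hQ] at hx
    rw [(Int.units_eq_one_or (φ x)).resolve_left (Finset.mem_filter.mp hx).2]
    rfl
  have hsum0 : ∑ x, ((φ x : ℤˣ) : ℤ) = 0 := by
    have h := sum_hom_units_eq_zero ((Units.coeHom ℤ).comp φ) (by
      intro h
      apply hφ1
      ext x
      have := DFunLike.congr_fun h x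
      simpa using this)
    simpa using h
  have hcard : (P.card : ℤ) + Q.card = 2 * n := by
    have h := hsplit (fun _ => 1)
    simp only [Finset.sum_const, Finset.card_univ, nsmul_eq_mul, mul_one] at h
    rw [hK] at h
    push_cast at h
    linarith
  have hcard2 : (P.card : ℤ) - Q.card = 0 := by
    have h := hsplit (fun x => ((φ x : ℤˣ) : ℤ))
    rw [hsum0, Finset.sum_congr rfl hφP, Finset.sum_congr rfl hφQ] at h
    simp only [Finset.sum_const, nsmul_eq_mul, mul_one, mul_neg] at h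
    linarith
  have hPn : P.card = n := by omega
  have hQn : Q.card = n := by omega
  have key : ∀ A : Finset K, W ψ A = 0 → W ψ' A = 0 →
      2 * (P ∩ symmDiff A (neg ψ)).card = n ∧ 2 * (Q ∩ symmDiff A (neg ψ)).card = n := by
    intro A h1 h2
    have e1 : ∑ x ∈ P, eps (symmDiff A (neg ψ)) x + ∑ x ∈ Q, eps (symmDiff A (neg ψ)) x = 0 := by
      rw [← hsplit, ← h1]
      unfold W
      exact Finset.sum_congr rfl fun x _ => eps_symmDiff ψ A x
    have e2 : ∑ x ∈ P, eps (symmDiff A (neg ψ)) x - ∑ x ∈ Q, eps (symmDiff A (neg ψ)) x = 0 := by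
      have h3 : ∑ x, ((φ x : ℤˣ) : ℤ) * eps (symmDiff A (neg ψ)) x = 0 := by
        rw [← h2]
        unfold W
        refine Finset.sum_congr rfl fun x _ => ?_
        rw [eps_symmDiff, ← mul_assoc]
        congr 1
        have h4 : φ x * ψ x = ψ' x := by
          rw [hφx, mul_comm (ψ x) (ψ' x), mul_assoc, mul_self_units, mul_one]
        rw [← h4]
        push_cast
        rfl
      rw [hsplit] at h3
      have h5 : ∑ x ∈ P, ((φ x : ℤˣ) : ℤ) * eps (symmDiff A (neg ψ)) x =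
          ∑ x ∈ P, eps (symmDiff A (neg ψ)) x :=
        Finset.sum_congr rfl fun x hx => by rw [hφP x hx, one_mul]
      have h6 : ∑ x ∈ Q, ((φ x : ℤˣ) : ℤ) * eps (symmDiff A (neg ψ)) x =
          - ∑ x ∈ Q, eps (symmDiff A (neg ψ)) x := by
        rw [← Finset.sum_neg_distrib]
        exact Finset.sum_congr rfl fun x hx => by rw [hφQ x hx, neg_one_mul]
      rw [h5, h6] at h3
      linarith
    rw [sum_eps, sum_eps] at e1 e2
    rw [hPn, hQn] at e1 e2
    constructor <;> omega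
  rcases Nat.even_or_odd' n with ⟨k, hk | hk⟩
  · have hle : ((univ : Finset (Finset K)).filter (fun A => W ψ A = 0 ∧ W ψ' A = 0)).card ≤
        (Finset.powersetCard k P ×ˢ Finset.powersetCard k Q).card := by
      refine Finset.card_le_card_of_injOn
        (fun A => (P ∩ symmDiff A (neg ψ), Q ∩ symmDiff A (neg ψ))) ?_ ?_
      · intro A hA
        have hA' := (Finset.mem_filter.mp hA).2
        have hk' := key A hA'.1 hA'.2
        rw [Finset.mem_coe, Finset.mem_product, Finset.mem_powersetCard, Finset.mem_powersetCard]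
        refine ⟨⟨Finset.inter_subset_left, ?_⟩, ⟨Finset.inter_subset_left, ?_⟩⟩
        · show (P ∩ symmDiff A (neg ψ)).card = k
          omega
        · show (Q ∩ symmDiff A (neg ψ)).card = k
          omega
      · intro A _ B _ hAB
        have h1 : P ∩ symmDiff A (neg ψ) = P ∩ symmDiff B (neg ψ) := congrArg Prod.fst hAB
        have h2 : Q ∩ symmDiff A (neg ψ) = Q ∩ symmDiff B (neg ψ) := congrArg Prod.snd hAB
        have h3 : symmDiff A (neg ψ) = symmDiff B (neg ψ) := by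
          ext x
          by_cases hx : φ x = 1
          · have hxP : x ∈ P := by rw [hP]; exact Finset.mem_filter.mpr ⟨Finset.mem_univ _, hx⟩
            have := Finset.ext_iff.mp h1 x
            rw [Finset.mem_inter, Finset.mem_inter] at this
            tauto
          · have hxQ : x ∈ Q := by rw [hQ]; exact Finset.mem_filter.mpr ⟨Finset.mem_univ _, hx⟩
            have := Finset.ext_iff.mp h2 x
            rw [Finset.mem_inter, Finset.mem_inter] at this
            tauto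
        exact symmDiff_left_injective _ h3
    rw [Finset.card_product, Finset.card_powersetCard, Finset.card_powersetCard, hPn, hQn, hk,
      ← Nat.centralBinom_eq_two_mul_choose] at hle
    have hu := cb_upper k
    calc (3 * n + 2) * _ ≤ (3 * n + 2) * (Nat.centralBinom k * Nat.centralBinom k) :=
          Nat.mul_le_mul_left _ hle
      _ = 2 * ((3 * k + 1) * Nat.centralBinom k ^ 2) := by rw [hk]; ring
      _ ≤ 2 * 16 ^ k := by gcongr
      _ = 2 * 4 ^ n := by rw [hk, pow_mul]; norm_num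
  · have h0 : (univ : Finset (Finset K)).filter (fun A => W ψ A = 0 ∧ W ψ' A = 0) = ∅ := by
      apply Finset.filter_eq_empty_iff.mpr
      intro A _ hA
      have := (key A hA.1 hA.2).1
      omega
    rw [h0]
    simp

/-- enough roots of unity in ℤ for a group of exponent two -/
theorem enough {G : Type} [CommGroup G] [Finite G] (hsq : ∀ x : G, x * x = 1) :
    HasEnoughRootsOfUnity ℤ (Monoid.exponent G) := by
  have h2 : HasEnoughRootsOfUnity ℤ 2 := by
    refine ⟨⟨-1, ?_⟩, rootsOfUnity.isCyclic ℤ 2⟩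
    exact IsPrimitiveRoot.neg_one 0 (by norm_num)
  exact HasEnoughRootsOfUnity.of_dvd ℤ (Monoid.exponent_dvd_of_forall_pow_eq_one fun x => by
    rw [sq]; exact hsq x)

theorem walsh_main [DecidablePred fun A : Finset K => ∃ ψ : K →* ℤˣ, W ψ A = 0]
    {n : ℕ} (hn : 2 ≤ n) (hK : Fintype.card K = 2 * n) (hsq : ∀ x : K, x * x = 1) :
    (2 : ℝ) ^ (2 * n) ≤
      5 * (((univ : Finset (Finset K)).filter (fun A => ∃ ψ : K →* ℤˣ, W ψ A = 0)).card : ℝ) := by
  classical
  have := enough hsq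
  have : Finite (K →* ℤˣ) := Finite.of_injective (fun f : K →* ℤˣ => (f : K → ℤˣ))
    DFunLike.coe_injective
  let _ : Fintype (K →* ℤˣ) := Fintype.ofFinite _
  have hdual : Fintype.card (K →* ℤˣ) = 2 * n := by
    rw [← hK, ← Nat.card_eq_fintype_card, ← Nat.card_eq_fintype_card]
    exact CommGroup.card_monoidHom_of_hasEnoughRootsOfUnity K ℤ
  obtain ⟨S, hS⟩ : ∃ S : Finset (Finset K),
    S = (univ : Finset (Finset K)).filter (fun A => ∃ ψ : K →* ℤˣ, W ψ A = 0) := ⟨_, rfl⟩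
  rw [← hS]
  obtain ⟨C, hC⟩ : ∃ C : ℝ, C = (Nat.centralBinom n : ℝ) := ⟨_, rfl⟩
  obtain ⟨N, hN⟩ : ∃ N : ℝ, N = (4 : ℝ) ^ n := ⟨_, rfl⟩
  have hC0 : 0 ≤ C := by rw [hC]; positivity
  have hN0 : 0 < N := by rw [hN]; positivity
  have hn0 : (2 : ℝ) ≤ n := by exact_mod_cast hn
  let χ : (K →* ℤˣ) → Finset K → ℝ := fun ψ A => if W ψ A = 0 then 1 else 0
  let m : Finset K → ℝ := fun A => ∑ ψ, χ ψ A
  have hm0 : ∀ A ∉ S, m A = 0 := by
    intro A hA
    refine Finset.sum_eq_zero fun ψ _ => ?_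
    refine if_neg fun h => hA ?_
    rw [hS]
    exact Finset.mem_filter.mpr ⟨Finset.mem_univ _, ψ, h⟩
  have hone : ∀ ψ, ∑ A, χ ψ A = C := by
    intro ψ
    show ∑ A, (if W ψ A = 0 then (1 : ℝ) else 0) = C
    rw [Finset.sum_boole, card_zero ψ hK, hC]
  have htwo : ∀ ψ ψ', ψ ≠ ψ' → (3 * n + 2) * ∑ A, χ ψ A * χ ψ' A ≤ 2 * N := by
    intro ψ ψ' hne
    have h1 : ∑ A, χ ψ A * χ ψ' A =
        (((univ : Finset (Finset K)).filter (fun A => W ψ A = 0 ∧ W ψ' A = 0)).card : ℝ) := by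
      rw [← Finset.sum_boole]
      refine Finset.sum_congr rfl fun A _ => ?_
      show (if W ψ A = 0 then (1 : ℝ) else 0) * (if W ψ' A = 0 then (1 : ℝ) else 0) = _
      split_ifs <;> simp_all
    rw [h1, hN]
    exact_mod_cast card_zero_two hne hK
  have hM1 : ∑ A, m A = 2 * n * C := by
    show ∑ A, ∑ ψ, χ ψ A = _
    rw [Finset.sum_comm, Finset.sum_congr rfl fun ψ _ => hone ψ, Finset.sum_const,
      Finset.card_univ, hdual, nsmul_eq_mul]
    push_cast
    ring
  have hM2 : ∑ A, m A ^ 2 ≤ 2 * n * (C + 4 / 3 * N) := by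
    have h1 : ∑ A, m A ^ 2 = ∑ ψ, ∑ ψ', ∑ A, χ ψ A * χ ψ' A := by
      have : ∀ A, m A ^ 2 = ∑ ψ, ∑ ψ', χ ψ A * χ ψ' A := by
        intro A
        rw [sq, Finset.sum_mul_sum]
      rw [Finset.sum_congr rfl fun A _ => this A, Finset.sum_comm]
      refine Finset.sum_congr rfl fun ψ _ => ?_
      rw [Finset.sum_comm]
    rw [h1]
    have h2 : ∀ ψ, ∑ ψ', ∑ A, χ ψ A * χ ψ' A ≤ C + 4 / 3 * N := by
      intro ψ
      rw [← Finset.add_sum_erase _ _ (Finset.mem_univ ψ)]
      refine add_le_add ?_ ?_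
      · rw [← hone ψ]
        refine Finset.sum_le_sum fun A _ => ?_
        show (if W ψ A = 0 then (1 : ℝ) else 0) * (if W ψ A = 0 then (1 : ℝ) else 0) ≤
          (if W ψ A = 0 then (1 : ℝ) else 0)
        split_ifs <;> norm_num
      · have h3 : ∀ ψ' ∈ (univ : Finset (K →* ℤˣ)).erase ψ, ∑ A, χ ψ A * χ ψ' A ≤
            2 * N / (3 * n + 2) := by
          intro ψ' hψ'
          rw [le_div_iff₀ (by positivity), mul_comm]
          exact htwo ψ ψ' (Finset.ne_of_mem_erase hψ').symm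
        refine (Finset.sum_le_sum h3).trans ?_
        rw [Finset.sum_const, nsmul_eq_mul]
        have h4 : (((univ : Finset (K →* ℤˣ)).erase ψ).card : ℝ) ≤ 2 * n := by
          have : ((univ : Finset (K →* ℤˣ)).erase ψ).card ≤ 2 * n := by
            rw [← hdual, ← Finset.card_univ]
            exact Finset.card_le_card (Finset.erase_subset _ _)
          exact_mod_cast this
        calc (((univ : Finset (K →* ℤˣ)).erase ψ).card : ℝ) * (2 * N / (3 * n + 2))
            ≤ 2 * n * (2 * N / (3 * n + 2)) := by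
              apply mul_le_mul_of_nonneg_right h4
              positivity
          _ ≤ 4 / 3 * N := by
              rw [← mul_div_assoc, div_le_iff₀ (by positivity)]
              nlinarith
    calc ∑ ψ, ∑ ψ', ∑ A, χ ψ A * χ ψ' A ≤ ∑ _ψ : K →* ℤˣ, (C + 4 / 3 * N) :=
          Finset.sum_le_sum fun ψ _ => h2 ψ
      _ = 2 * n * (C + 4 / 3 * N) := by
          rw [Finset.sum_const, Finset.card_univ, hdual, nsmul_eq_mul]
          push_cast
          ring
  have hCS : (2 * n * C) ^ 2 ≤ (S.card : ℝ) * (2 * n * (C + 4 / 3 * N)) := by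
    have h1 : ∑ A, m A = ∑ A ∈ S, m A :=
      (Finset.sum_subset (Finset.subset_univ S) fun A _ hA => hm0 A hA).symm
    rw [← hM1, h1]
    refine sq_sum_le_card_mul_sum_sq.trans ?_
    refine mul_le_mul_of_nonneg_left (le_trans ?_ hM2) (by positivity)
    exact Finset.sum_le_sum_of_subset_of_nonneg (Finset.subset_univ S) fun A _ _ => sq_nonneg _
  have hlow : N ^ 2 ≤ 4 * n * C ^ 2 := by
    rw [hN, hC, ← pow_mul, mul_comm n 2, pow_mul]
    have := cb_lower n (by omega)
    norm_num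
    exact_mod_cast this
  have hup : 7 * C ^ 2 ≤ N ^ 2 := by
    have h1 : (3 * (n : ℝ) + 1) * C ^ 2 ≤ N ^ 2 := by
      rw [hN, hC, ← pow_mul, mul_comm n 2, pow_mul]
      have := cb_upper n
      norm_num
      exact_mod_cast this
    nlinarith [sq_nonneg C]
  have hCN : C ≤ 2 / 5 * N := by
    by_contra hcon
    push Not at hcon
    nlinarith
  have hG0 : (0 : ℝ) ≤ S.card := by positivity
  have h7 : N * N ≤ N * (5 * (S.card : ℝ)) := by
    have h8 : 2 * n * C ^ 2 ≤ (S.card : ℝ) * (C + 4 / 3 * N) := by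
      have h9 : 2 * (n : ℝ) * (2 * n * C ^ 2) ≤ 2 * n * ((S.card : ℝ) * (C + 4 / 3 * N)) := by
        nlinarith [hCS]
      exact le_of_mul_le_mul_left h9 (by linarith)
    have h10 : (S.card : ℝ) * (C + 4 / 3 * N) ≤ (S.card : ℝ) * (26 / 15 * N) :=
      mul_le_mul_of_nonneg_left (by linarith) hG0
    nlinarith
  have h11 := le_of_mul_le_mul_left h7 hN0
  have h12 : (2 : ℝ) ^ (2 * n) = N := by
    rw [hN, pow_mul]
    norm_num
  rw [h12]
  exact h11

end Walsh

open Classical in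
theorem sh1 : Pool.Agent.Q43.RP.S_SH1 := by
  intro Γ _ _ c g hsq hc hcard hg
  have hen := enough hsq
  obtain ⟨χ₀, hχ₀⟩ := CommGroup.exists_apply_ne_one_of_hasEnoughRootsOfUnity Γ ℤ hc
  have hc0 : χ₀ c = -1 := (Int.units_eq_one_or (χ₀ c)).resolve_left hχ₀
  have hcc : c * c = 1 := hsq c
  have hm1 : ¬ ((-1 : ℤˣ) = 1) := by decide
  have hker : ∀ x : Γ, x ∈ χ₀.ker ↔ χ₀ x = 1 := fun x => MonoidHom.mem_ker
  have hnot : ∀ x : Γ, x ∉ χ₀.ker → c * x ∈ χ₀.ker := by
    intro x hx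
    rw [hker] at hx ⊢
    rw [map_mul, hc0, (Int.units_eq_one_or (χ₀ x)).resolve_left hx]
    decide
  have hcx : ∀ x : Γ, x ∈ χ₀.ker → c * x ∉ χ₀.ker := by
    intro x hx
    rw [hker] at hx ⊢
    rw [map_mul, hc0, hx]
    decide
  have hccx : ∀ x : Γ, c * (c * x) = x := fun x => by rw [← mul_assoc, hcc, one_mul]
  let e : Γ ≃ χ₀.ker ⊕ χ₀.ker :=
    { toFun := fun x => if h : x ∈ χ₀.ker then Sum.inl ⟨x, h⟩ else Sum.inr ⟨c * x, hnot x h⟩
      invFun := Sum.elim (fun y : χ₀.ker => (y : Γ)) (fun y : χ₀.ker => c * (y : Γ))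
      left_inv := by
        intro x
        by_cases h : x ∈ χ₀.ker
        · simp only [dif_pos h, Sum.elim_inl]
        · simp only [dif_neg h, Sum.elim_inr, hccx]
      right_inv := by
        rintro (y | y)
        · simp only [Sum.elim_inl]
          exact dif_pos y.2
        · simp only [Sum.elim_inr]
          refine (dif_neg (hcx y y.2)).trans ?_
          exact congrArg Sum.inr (Subtype.ext (hccx y)) }
  have hsumΓ : ∀ f : Γ → ℤ, ∑ x, f x = ∑ y : χ₀.ker, (f y + f (c * y)) := by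
    intro f
    rw [← Equiv.sum_comp e.symm f, Fintype.sum_sum_type, ← Finset.sum_add_distrib]
    rfl
  have hK2 : Fintype.card χ₀.ker = g := by
    have h1 := Fintype.card_congr e
    rw [Fintype.card_sum, hcard] at h1
    omega
  have hsqK : ∀ x : χ₀.ker, x * x = 1 := fun x => Subtype.ext (hsq x)
  -- the order g is even
  obtain ⟨n, hn⟩ : ∃ n, g = 2 * n := by
    have hnt : 1 < Fintype.card χ₀.ker := by omega
    obtain ⟨x, hx⟩ := Fintype.exists_ne_of_one_lt_card hnt 1
    have h1 : orderOf x = 2 := orderOf_eq_prime (by rw [sq]; exact hsqK x) hx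
    have h2 := orderOf_dvd_card (x := x)
    rw [h1, hK2] at h2
    exact h2
  have hmain := walsh_main (K := χ₀.ker) (n := n) (by omega) (by omega) hsqK
  rw [← hn] at hmain
  refine hmain.trans ?_
  have hle : ((univ : Finset (Finset χ₀.ker)).filter
      (fun A => ∃ ψ : χ₀.ker →* ℤˣ, W ψ A = 0)).card ≤
      ((Pool.Agent.W548.Sh.Halves (fun x : Γ => c * x)).filter
      (fun T => ∃ χ : Γ →* ℤˣ, χ c = -1 ∧ ∑ x ∈ T, ((χ x : ℤˣ) : ℤ) = 0)).card := by
    let Φ : Finset χ₀.ker → Finset Γ := fun A => univ.filter (fun x =>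
      if h : x ∈ χ₀.ker then (⟨x, h⟩ : χ₀.ker) ∈ A else (⟨c * x, hnot x h⟩ : χ₀.ker) ∉ A)
    have hΦ1 : ∀ (A : Finset χ₀.ker) (y : χ₀.ker), (y : Γ) ∈ Φ A ↔ y ∈ A := by
      intro A y
      rw [Finset.mem_filter, dif_pos y.2]
      exact ⟨fun h => h.2, fun h => ⟨Finset.mem_univ _, h⟩⟩
    have hΦ2 : ∀ (A : Finset χ₀.ker) (y : χ₀.ker), c * (y : Γ) ∈ Φ A ↔ y ∉ A := by
      intro A y
      rw [Finset.mem_filter, dif_neg (hcx y y.2)]
      have h1 : (⟨c * (c * (y : Γ)), hnot _ (hcx y y.2)⟩ : χ₀.ker) = y := Subtype.ext (hccx y)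
      rw [h1]
      exact ⟨fun h => h.2, fun h => ⟨Finset.mem_univ _, h⟩⟩
    refine Finset.card_le_card_of_injOn Φ ?_ ?_
    · intro A hA
      obtain ⟨ψ, hψ⟩ := (Finset.mem_filter.mp hA).2
      rw [Finset.mem_coe, Finset.mem_filter]
      refine ⟨?_, ?_⟩
      · rw [Pool.Agent.W548.Sh.mem_Halves]
        intro x
        by_cases h : x ∈ χ₀.ker
        · have h1 := hΦ1 A ⟨x, h⟩
          have h2 := hΦ2 A ⟨x, h⟩
          dsimp only at h1 h2 ⊢
          rw [h1, h2]
          tauto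
        · have h1 := hΦ1 A ⟨c * x, hnot x h⟩
          have h2 := hΦ2 A ⟨c * x, hnot x h⟩
          dsimp only at h1 h2 ⊢
          rw [hccx] at h2
          rw [h1, h2]
      · obtain ⟨χ₁, hχ₁⟩ := MonoidHom.domRestrict_surjective ℤ χ₀.ker ψ
        have hres : ∀ y : χ₀.ker, χ₁ (y : Γ) = ψ y := fun y => DFunLike.congr_fun hχ₁ y
        obtain ⟨χ, hχc, hχ⟩ : ∃ χ : Γ →* ℤˣ, χ c = -1 ∧ ∀ y : χ₀.ker, χ (y : Γ) = ψ y := by
          rcases Int.units_eq_one_or (χ₁ c) with h | h
          · refine ⟨χ₁ * χ₀, ?_, fun y => ?_⟩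
            · show χ₁ c * χ₀ c = -1
              rw [h, hc0, one_mul]
            · show χ₁ y * χ₀ y = ψ y
              rw [hres, (hker y).mp y.2, mul_one]
          · exact ⟨χ₁, h, hres⟩
        refine ⟨χ, hχc, ?_⟩
        rw [← hψ]
        unfold W
        have h1 : ∑ x ∈ Φ A, ((χ x : ℤˣ) : ℤ) =
            ∑ x, (if x ∈ Φ A then ((χ x : ℤˣ) : ℤ) else 0) := by
          rw [Finset.sum_ite_mem, Finset.univ_inter]
        rw [h1, hsumΓ]
        refine Finset.sum_congr rfl fun y _ => ?_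
        rw [map_mul, hχc, hχ]
        unfold eps
        have h2 := hΦ1 A y
        have h3 := hΦ2 A y
        by_cases hy : y ∈ A
        · rw [if_pos (h2.mpr hy), if_neg (fun h => (h3.mp h) hy), if_pos hy]
          ring
        · rw [if_neg (fun h => hy (h2.mp h)), if_pos (h3.mpr hy), if_neg hy]
          push_cast
          ring
    · intro A _ B _ hAB
      ext y
      have hAB' : Φ A = Φ B := hAB
      rw [← hΦ1 A y, ← hΦ1 B y, hAB']
  have hle' : (((univ : Finset (Finset χ₀.ker)).filter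
      (fun A => ∃ ψ : χ₀.ker →* ℤˣ, W ψ A = 0)).card : ℝ) ≤
      (((Pool.Agent.W548.Sh.Halves (fun x : Γ => c * x)).filter
      (fun T => ∃ χ : Γ →* ℤˣ, χ c = -1 ∧ ∑ x ∈ T, ((χ x : ℤˣ) : ℤ) = 0)).card : ℝ) := by
    exact_mod_cast hle
  linarith

end Pool.Agent.Q135.RP
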